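import Mathlib

set_option autoImplicit false

namespace Pool.Agent.Results.MP_f8a8cb_gt.Local

open Filter Topology Set

universe u v

/-- X is G-delta-dense in some Hausdorff compactification. -/
def WeaklyPseudocompact (X : Type u) [TopologicalSpace X] : Prop :=
  ∃ (K : Type v) (_ : TopologicalSpace K) (_ : CompactSpace K) (_ : T2Space K) (e : X → K),
    IsEmbedding e ∧ DenseRange e ∧ ∀ S : Set K, IsGδ S → S.Nonempty → (S ∩ range e).Nonempty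

def Pseudocompact (X : Type u) [TopologicalSpace X] : Prop :=
  ∀ f : X → ℝ, Continuous f → ∃ M : ℝ, ∀ x, |f x| ≤ M

def Strat {G : Type*} [TopologicalSpace G] {S : Type*} (U : S → Set G) (R : S → S → Prop) :
    Prop :=
  (∀ s, IsOpen (U s) ∧ (U s).Nonempty) ∧
  (∀ s O, IsOpen O → O.Nonempty → O ⊆ U s → ∃ s', R s s' ∧ U s' ⊆ O) ∧
  ∀ s : ℕ → S, (∀ n, R (s n) (s (n + 1))) → ∃ a, ∀ n, a ∈ U (s n)

theorem strat_of {G : Type u} [TopologicalSpace G] {U : Set G} (hU : IsOpen U) (hne : U.Nonempty)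
    (h : WeaklyPseudocompact.{u, v} (closure U)) :
    ∃ (S : Type v) (W : S → Set G) (R : S → S → Prop), Strat W R ∧ Nonempty S := by
  obtain ⟨K, _, _, _, e, he, hd, hG⟩ := h
  have hop : ∀ O : Set G, IsOpen O → ∃ O' : Set K, IsOpen O' ∧ e ⁻¹' O' = Subtype.val ⁻¹' O :=
    fun O hO => he.isInducing.isOpen_iff.1 (hO.preimage continuous_subtype_val)
  refine ⟨{O : Set K // IsOpen O ∧ O.Nonempty ∧ ∀ x, e x ∈ O → x.1 ∈ U},
    fun s => Subtype.val '' (e ⁻¹' s.1), fun s s' => closure s'.1 ⊆ s.1, ⟨?_, ?_, ?_⟩, ?_⟩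
  · rintro ⟨O, h1, h2, h3⟩
    obtain ⟨W, hW, hW2⟩ := isOpen_induced_iff.1 (h1.preimage he.continuous)
    refine ⟨?_, (hd.exists_mem_open h1 h2).elim fun x hx => ⟨x.1, x, hx, rfl⟩⟩
    have : Subtype.val '' (e ⁻¹' O) = W ∩ U := by
      ext g
      constructor
      · rintro ⟨x, hx, rfl⟩
        exact ⟨show x ∈ Subtype.val ⁻¹' W from hW2 ▸ hx, h3 x hx⟩
      · rintro ⟨g1, g2⟩
        exact ⟨⟨g, subset_closure g2⟩, hW2 ▸ g1, rfl⟩
    exact show IsOpen (Subtype.val '' (e ⁻¹' O)) from this ▸ hW.inter hU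
  · rintro ⟨O, h1, h2, h3⟩ W hW ⟨g, hg⟩ hWO
    obtain ⟨x, hx, rfl⟩ := hWO hg
    obtain ⟨O', hO', hO2⟩ := hop W hW
    have hx' : e x ∈ O' := show x ∈ e ⁻¹' O' from hO2 ▸ hg
    obtain ⟨C, hC1, hC2, hC3⟩ := exists_mem_nhds_isClosed_subset
      ((h1.inter hO').mem_nhds ⟨hx, hx'⟩)
    refine ⟨⟨interior C, isOpen_interior, ⟨e x, mem_interior_iff_mem_nhds.2 hC1⟩,
      fun y hy => h3 y (hC3 (interior_subset hy)).1⟩,
      (closure_minimal interior_subset hC2).trans (hC3.trans inter_subset_left), ?_⟩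
    rintro _ ⟨y, hy, rfl⟩
    exact show y ∈ Subtype.val ⁻¹' W from hO2 ▸ (hC3 (interior_subset hy)).2
  · intro s hs
    obtain ⟨p, hp⟩ := IsCompact.nonempty_iInter_of_sequence_nonempty_isCompact_isClosed
      (fun n => closure (s n).1) (fun n => (hs n).trans subset_closure)
      (fun n => (s n).2.2.1.closure) isClosed_closure.isCompact fun n => isClosed_closure
    obtain ⟨_, h1, x, rfl⟩ := hG (⋂ n, (s n).1) (IsGδ.iInter fun n => (s n).2.1.isGδ)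
      ⟨p, mem_iInter.2 fun n => hs n (mem_iInter.1 hp (n + 1))⟩
    exact ⟨x.1, fun n => ⟨x, mem_iInter.1 h1 n, rfl⟩⟩
  · obtain ⟨O', hO', hO2⟩ := hop U hU
    obtain ⟨g, hg⟩ := hne
    exact ⟨⟨O', hO', ⟨e ⟨g, subset_closure hg⟩, show _ ∈ e ⁻¹' O' from hO2 ▸ hg⟩,
      fun x hx => show x ∈ Subtype.val ⁻¹' U from hO2 ▸ hx⟩⟩

theorem strat_tr {G : Type*} [Group G] [TopologicalSpace G] [IsTopologicalGroup G] {S : Type*}
    {U : S → Set G} {R : S → S → Prop} (h : Strat U R) (g : G) :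
    Strat (fun s => (fun z => g * z) ⁻¹' U s) R := by
  obtain ⟨h1, h2, h3⟩ := h
  refine ⟨fun s => ⟨(h1 s).1.preimage (by fun_prop), ?_⟩, fun s O hO hne hOs => ?_, fun s hs => ?_⟩
  · obtain ⟨a, ha⟩ := (h1 s).2
    exact ⟨g⁻¹ * a, by simpa using ha⟩
  · obtain ⟨o, ho⟩ := hne
    obtain ⟨s', h4, h5⟩ := h2 s ((fun z => g⁻¹ * z) ⁻¹' O) (hO.preimage (by fun_prop))
      ⟨g * o, by simpa using ho⟩ fun z hz => by simpa using hOs hz
    exact ⟨s', h4, fun z hz => by simpa using h5 hz⟩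
  · obtain ⟨a, ha⟩ := h3 s hs
    exact ⟨g⁻¹ * a, fun n => by simpa using ha n⟩

theorem shift {H : Type*} [Group H] [TopologicalSpace H] [IsTopologicalGroup H] {F : Filter ℕ}
    [F.NeBot] (y : ℕ → H)
    (hy : Tendsto (fun q : ℕ × ℕ => y q.1 * (y q.2)⁻¹) (F ×ˢ F) (𝓝 1)) {V : Set H} (hV : IsOpen V)
    (hne : V.Nonempty) :
    ∃ O : Set H, IsOpen O ∧ O.Nonempty ∧ ∀ᶠ k in F, ∀ z ∈ O, y k * z ∈ V := by
  obtain ⟨a, ha⟩ := hne
  have hc : ContinuousAt (fun q : H × H => q.1 * q.2) (1, a) := continuous_mul.continuousAt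
  have : V ∈ 𝓝 ((fun q : H × H => q.1 * q.2) (1, a)) := by simpa using hV.mem_nhds ha
  obtain ⟨N, hN, W, hW, hNW⟩ := mem_nhds_prod_iff.1 (hc this)
  obtain ⟨A, hA, B, hB, hm⟩ := mem_prod_iff.1 (hy hN)
  obtain ⟨m2, hm2⟩ := F.nonempty_of_mem hB
  refine ⟨(fun z => y m2 * z) ⁻¹' interior W, isOpen_interior.preimage (by fun_prop),
    ⟨(y m2)⁻¹ * a, by simpa using mem_interior_iff_mem_nhds.2 hW⟩, ?_⟩
  filter_upwards [hA] with k hk z hz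
  have := hNW (mk_mem_prod (hm (mk_mem_prod hk hm2)) (interior_subset hz))
  simpa [mul_assoc] using this

theorem conv {H : Type*} [Group H] [TopologicalSpace H] [IsTopologicalGroup H] {S : Type*}
    [hS : Nonempty S] {U : S → Set H} {R : S → S → Prop} (hU : Strat U R) {F : Filter ℕ} [F.NeBot]
    (x : ℕ → H) (hr : Tendsto (fun q : ℕ × ℕ => x q.1 * (x q.2)⁻¹) (F ×ˢ F) (𝓝 1))
    (hl : Tendsto (fun q : ℕ × ℕ => (x q.1)⁻¹ * ((x q.2)⁻¹)⁻¹) (F ×ˢ F) (𝓝 1))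
    (N : ℕ → Set H) (hN : ∀ n, N n ∈ 𝓝 1) :
    ∃ c, ∀ n, ∀ᶠ k in F, c * (x k)⁻¹ ∈ N n := by
  obtain ⟨s0⟩ := hS
  obtain ⟨O0, hO0, ⟨o0, ho0⟩, hO0'⟩ := shift (fun k => (x k)⁻¹) hl (hU.1 s0).1 (hU.1 s0).2
  obtain ⟨u0, hu0⟩ := (hU.1 s0).2
  obtain ⟨g1, g3, g4⟩ := strat_tr hU (u0 * o0⁻¹)
  set U' : S → Set H := fun s => (fun z => u0 * o0⁻¹ * z) ⁻¹' U s with hU'
  obtain ⟨t0, -, ht0⟩ := g3 s0 (O0 ∩ U' s0) (hO0.inter (g1 s0).1) ⟨o0, ho0, by simpa [hU']⟩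
    inter_subset_right
  obtain ⟨h1, h3, h4⟩ := hU
  let P : Type _ := {q : S × S // ∀ᶠ k in F, ∀ z ∈ U' q.2, (x k)⁻¹ * z ∈ U q.1}
  have step : ∀ (n : ℕ) (q : P), ∃ q' : P, R q.1.1 q'.1.1 ∧ R q.1.2 q'.1.2 ∧
      (∀ᶠ k in F, ∀ z ∈ U q'.1.1, x k * z ∈ U' q.1.2) ∧
      ∀ z ∈ U' q'.1.2, ∀ w ∈ U' q'.1.2, z * w⁻¹ ∈ N n := by
    rintro n ⟨⟨s, t⟩, hq⟩
    obtain ⟨O, hO1, hO2, hO3⟩ := shift x hr (g1 t).1 (g1 t).2
    have hOs : O ⊆ U s := by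
      obtain ⟨k, hk1, hk2⟩ := (hq.and hO3).exists
      intro z hz
      simpa using hk1 _ (hk2 z hz)
    obtain ⟨s', hs1, hs2⟩ := h3 s O hO1 hO2 hOs
    obtain ⟨O', hO1', ⟨o, ho⟩, hO3'⟩ := shift (fun k => (x k)⁻¹) hl (h1 s').1 (h1 s').2
    have hOt : O' ⊆ U' t := by
      obtain ⟨k, hk1, hk2⟩ := (hO3.and hO3').exists
      intro z hz
      have := hk1 _ (hs2 (hk2 z hz))
      rwa [mul_inv_cancel_left] at this
    have hc : ContinuousAt (fun q : H × H => q.1 * q.2⁻¹) (o, o) := by fun_prop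
    have : N n ∈ 𝓝 ((fun q : H × H => q.1 * q.2⁻¹) (o, o)) := by simpa using hN n
    obtain ⟨A, hA, B, hB, hAB⟩ := mem_nhds_prod_iff.1 (hc this)
    obtain ⟨t', ht1, ht2⟩ := g3 t (O' ∩ interior (A ∩ B))
      (hO1'.inter isOpen_interior) ⟨o, ho, mem_interior_iff_mem_nhds.2 (inter_mem hA hB)⟩
      (inter_subset_left.trans hOt)
    exact ⟨⟨(s', t'), hO3'.mono fun k hk z hz => hk z (ht2 hz).1⟩, hs1, ht1,
      hO3.mono fun k hk z hz => hk z (hs2 hz), fun z hz w hw =>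
        hAB (mk_mem_prod (interior_subset (ht2 hz).2).1 (interior_subset (ht2 hw).2).2)⟩
  choose f hf using step
  let q : ℕ → P := fun n => Nat.rec ⟨(s0, t0), hO0'.mono fun k hk z hz => hk z (ht0 hz).1⟩
    (fun n a => f n a) n
  obtain ⟨a, ha⟩ := h4 (fun n => (q n).1.1) fun n => (hf n (q n)).1
  obtain ⟨b, hb⟩ := g4 (fun n => (q n).1.2) fun n => (hf n (q n)).2.1
  refine ⟨b * a⁻¹, fun n => ?_⟩
  filter_upwards [(hf (n + 1) (q (n + 1))).2.2.1] with k hk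
  simpa [mul_assoc] using (hf n (q n)).2.2.2 _ (hb (n + 1)) _ (hk a (ha (n + 2)))

theorem result {H : Type u} [Group H] [TopologicalSpace H] [IsTopologicalGroup H] [T2Space H]
    [LocallyCompactSpace H] (G : Subgroup H) (U : Set G) (hU : IsOpen U) (h1 : (1 : G) ∈ U)
    (hW : WeaklyPseudocompact.{u, v} (closure U)) :
    ∃ V : Set G, IsOpen V ∧ (1 : G) ∈ V ∧ Pseudocompact (closure V) := by
  obtain ⟨S, W, R, hS, hne⟩ := strat_of hU ⟨1, h1⟩ hW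
  obtain ⟨K, hK, hK1⟩ := exists_compact_mem_nhds (1 : H)
  set V : Set G := Subtype.val ⁻¹' interior K with hV
  have hVo : IsOpen V := isOpen_interior.preimage continuous_subtype_val
  refine ⟨V, hVo, mem_interior_iff_mem_nhds.2 hK1, fun f hf => ?_⟩
  by_contra hc
  push Not at hc
  have key : ∀ n : ℕ, ∃ y ∈ V, ∃ N ∈ 𝓝 (1 : G), ∀ u ∈ N,
      u * y ∈ V ∧ ∀ h : u * y ∈ closure V, (n : ℝ) < |f ⟨u * y, h⟩| := by
    intro n
    obtain ⟨z, hz⟩ := hc n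
    obtain ⟨O, hO, hO2⟩ := isOpen_induced_iff.1 (isOpen_lt continuous_const hf.abs :
      IsOpen {w | (n : ℝ) < |f w|})
    obtain ⟨y, hy1, hy2⟩ := mem_closure_iff.1 z.2 O hO (show z ∈ Subtype.val ⁻¹' O from hO2 ▸ hz)
    refine ⟨y, hy2, (fun u => u * y) ⁻¹' (O ∩ V),
      ((hO.inter hVo).preimage (by fun_prop)).mem_nhds (by simpa using ⟨hy1, hy2⟩),
      fun u hu => ⟨hu.2, fun h => ?_⟩⟩
    exact show (⟨u * y, h⟩ : closure V) ∈ {w | (n : ℝ) < |f w|} from hO2 ▸ hu.1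
  choose y hy N hN hN2 using key
  obtain ⟨x, -, hx⟩ := hK.ultrafilter_le_nhds ((hyperfilter ℕ).map fun k => (y k : H))
    (le_principal_iff.2 (mem_map.2 (univ_mem' fun k =>
      (interior_subset (s := K) (hy k) : (y k : H) ∈ K))))
  have hx' : Tendsto (fun k => (y k : H)) (hyperfilter ℕ) (𝓝 x) := hx
  have hr : Tendsto (fun q : ℕ × ℕ => y q.1 * (y q.2)⁻¹)
      ((hyperfilter ℕ : Filter ℕ) ×ˢ (hyperfilter ℕ : Filter ℕ)) (𝓝 1) := by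
    refine tendsto_subtype_rng.2 ?_
    simpa using (hx'.comp tendsto_fst).mul (hx'.comp tendsto_snd).inv
  have hl : Tendsto (fun q : ℕ × ℕ => (y q.1)⁻¹ * ((y q.2)⁻¹)⁻¹)
      ((hyperfilter ℕ : Filter ℕ) ×ˢ (hyperfilter ℕ : Filter ℕ)) (𝓝 1) := by
    refine tendsto_subtype_rng.2 ?_
    simpa using (hx'.comp tendsto_fst).inv.mul (hx'.comp tendsto_snd)
  obtain ⟨c, hc2⟩ := conv hS y hr hl N hN
  have hcl : ∀ O ∈ 𝓝 c, ∀ n : ℕ, ∃ w ∈ O, w ∈ V ∧ ∀ h : w ∈ closure V, (n : ℝ) < |f ⟨w, h⟩| := by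
    intro O hO n
    have h2 := hl.const_mul c
    rw [mul_one] at h2
    obtain ⟨A, hA, B, hB, hAB⟩ := mem_prod_iff.1 (h2 hO)
    obtain ⟨k, hk1, hk2⟩ := Filter.nonempty_of_mem
      (inter_mem hB (Nat.hyperfilter_le_atTop (eventually_ge_atTop n)))
    obtain ⟨j, hj1, hj2⟩ := Filter.nonempty_of_mem (inter_mem hA (hc2 k))
    refine ⟨c * (y j)⁻¹ * y k, by simpa [mul_assoc] using hAB (mk_mem_prod hj1 hk1),
      (hN2 k _ hj2).1, fun h => lt_of_le_of_lt ?_ ((hN2 k _ hj2).2 h)⟩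
    exact_mod_cast hk2
  have hcV : c ∈ closure V := mem_closure_iff_nhds.2 fun O hO =>
    (hcl O hO 0).elim fun w hw => ⟨w, hw.1, hw.2.1⟩
  obtain ⟨n, hn⟩ := exists_nat_gt |f ⟨c, hcV⟩|
  obtain ⟨O, hO, hO2⟩ := isOpen_induced_iff.1 (isOpen_lt hf.abs continuous_const :
    IsOpen {w | |f w| < (n : ℝ)})
  obtain ⟨w, hw1, hw2, hw3⟩ := hcl O (hO.mem_nhds
    (show (⟨c, hcV⟩ : closure V) ∈ Subtype.val ⁻¹' O from hO2 ▸ hn)) n
  have : (⟨w, subset_closure hw2⟩ : closure V) ∈ {w | |f w| < (n : ℝ)} := hO2 ▸ hw1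
  exact lt_asymm this (hw3 _)

end Pool.Agent.Results.MP_f8a8cb_gt.Local
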